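import Pool.Agent.Helper64.FL.StC

/-! Full list for MP_866009_co: cyclic data at a clique contradict the Naji system. -/

set_option autoImplicit false

namespace Pool.Agent.Helper64.FL

open Pool.Agent.Helper64.CT Pool.Agent.Helper64.DT
open Pool.Agent.Helper64.HG (Ovl Model Circ IC HellyCircle ChordModel)

/-- the sign does not depend on the index of the other vertex -/
theorem rcy_ind (h2 : ST_TRN) {V : Type} {G : SimpleGraph V} {S : Set V} {b : V → V → Bool}
    (hb : NJ G S b) {m : ℕ} {q : ℕ → V}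
    (qS : ∀ i, q i ∈ S) (qq : ∀ i j, i < j → j < i + m → G.Adj (q i) (q j))
    {i : ℕ} {v : V} (hv : v ∈ S) (hqv : G.Adj (q i) v)
    (hf : ∀ j, i < j → j < i + m → v ∈ Far G (q j)) {j k : ℕ} (hj : i < j) (hj' : j < i + m)
    (hk : i < k) (hk' : k < i + m) :
    xor (b (q j) v) (b (q i) (q j)) = xor (b (q k) v) (b (q i) (q k)) := by
  have key : ∀ j k, i < j → j < k → k < i + m →
      xor (b (q j) v) (b (q i) (q j)) = xor (b (q k) v) (b (q i) (q k)) := by
    intro j k hj hjk hk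
    have e := h2 V G S b hb (q i) (qS i) (q j) (qS j) (q k) (qS k) v hv (qq i j hj (by omega))
      (qq i k (by omega) hk) (qq j k hjk (by omega)) hqv (hf j hj (by omega)) (hf k (by omega) hk)
    revert e
    cases b (q j) v <;> cases b (q k) v <;> cases b (q i) (q j) <;> cases b (q i) (q k) <;> simp
  rcases Nat.lt_trichotomy j k with h | h | h
  · exact key j k hj h hk'
  · rw [h]
  · exact (key k j hk h hj').symm

/-- telescoping -/
theorem rcy_tel (g : ℕ → Bool) (n : ℕ) :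
    xs (fun i => xor (g i) (g (i + 1))) n = xor (g 0) (g n) := by
  induction n with
  | zero => simp [xs]
  | succ n ih =>
    show xor (xs (fun i => xor (g i) (g (i + 1))) n) (xor (g n) (g (n + 1))) = _
    rw [ih]
    cases g 0 <;> cases g n <;> cases g (n + 1) <;> rfl

theorem st_RCY (h1 : ST_NJC) (h2 : ST_TRN) (h3 : ST_OVL) (h4 : ST_XSB) : ST_RCY := by
  rintro V G S m q u w d D hd ⟨b, hb⟩
  have hb' : NJ G S b := hb
  have m3 := D.m3
  have qS : ∀ i, q i ∈ S := fun i => (D.qS i).1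
  have qq : ∀ i j, i < j → j < i + m → G.Adj (q i) (q j) := fun i j a c => (D.qq i j a c).1
  -- signs
  have su : ∀ i j, i < j → j < i + m →
      xor (b (q j) (u i)) (b (q i) (q j)) = xor (b (q (i + 1)) (u i)) (b (q i) (q (i + 1))) := by
    intro i j hj hj'
    exact rcy_ind h2 hb' qS qq (D.qS i).2.1 (D.qu i).1 (fun j a c => (D.qq i j a c).2.1) hj hj'
      (by omega) (by omega)
  have sw : ∀ i j, i < j → j < i + m →
      xor (b (q j) (w i)) (b (q i) (q j)) = xor (b (q (i + 1)) (w i)) (b (q i) (q (i + 1))) := by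
    intro i j hj hj'
    exact rcy_ind h2 hb' qS qq (D.qS i).2.2 (D.qu i).2 (fun j a c => (D.qq i j a c).2.2) hj hj'
      (by omega) (by omega)
  obtain ⟨fu, hfu⟩ : ∃ fu : ℕ → Bool, ∀ i, fu i = xor (b (q (i + 1)) (u i)) (b (q i) (q (i + 1))) :=
    ⟨_, fun _ => rfl⟩
  obtain ⟨fw, hfw⟩ : ∃ fw : ℕ → Bool, ∀ i, fw i = xor (b (q (i + 1)) (w i)) (b (q i) (q (i + 1))) :=
    ⟨_, fun _ => rfl⟩
  have pu : ∀ i, fu (i + m) = fu i := by
    intro i
    rw [hfu, hfu, show i + m + 1 = i + 1 + m by omega, D.pq, D.pq, D.pu]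
  have pw : ∀ i, fw (i + m) = fw i := by
    intro i
    rw [hfw, hfw, show i + m + 1 = i + 1 + m by omega, D.pq, D.pq, D.pw]
  -- the difference of the two rays at one vertex
  have e1 : ∀ i, xor (fu i) (fw i) = d i := by
    intro i
    obtain ⟨j, hj, hj', hh⟩ := D.dd i
    have a1 := su i j hj hj'
    have a2 := sw i j hj hj'
    rw [← hfu] at a1
    rw [← hfw] at a2
    rcases hh with ⟨hd0, hc⟩ | ⟨hd1, hne, hna, c1, c2⟩
    · have a3 := h1 V G S b hb' (q j) (qS j) (w i) (u i) hc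
      rw [hd0, ← a1, ← a2, a3]
      cases b (q j) (u i) <;> cases b (q i) (q j) <;> rfl
    · have a3 := h3 V G S b hb' (q i) (qS i) (q j) (qS j) (w i) (D.qS i).2.2 (u i) (D.qS i).2.1
        (qq i j hj hj') (D.qu i).2 (D.qu i).1 hne hna c1 c2
      rw [hd1, ← a1, ← a2]
      revert a3
      cases b (q j) (w i) <;> cases b (q j) (u i) <;> cases b (q i) (q j) <;> simp
  -- the links
  have e2 : ∀ i j, i + 1 < j → j < i + m →
      xor (fu i) (fw (i + 1)) = xor (b (q i) (q j)) (b (q (i + 1)) (q j)) := by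
    intro i j hj hj'
    have a1 := su i j (by omega) hj'
    have a2 := sw (i + 1) j hj (by omega)
    rw [← hfu] at a1
    rw [← hfw] at a2
    have a3 := h1 V G S b hb' (q j) (qS j) (u i) (w (i + 1)) (D.lk i j hj hj')
    rw [← a1, ← a2, a3]
    cases b (q j) (w (i + 1)) <;> cases b (q i) (q j) <;> cases b (q (i + 1)) (q j) <;> rfl
  obtain ⟨x1, -⟩ := h4 fu (fun i => fw (i + 1)) m
  obtain ⟨x2, -⟩ := h4 fu fw m
  obtain ⟨-, x3, -⟩ := h4 fw fw m
  have x4 := x3 pw 1
  rw [x4] at x1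
  have x5 : xs (fun i => xor (fu i) (fw i)) m = xs d m := by
    congr 1
    funext i
    exact e1 i
  rw [x5, hd] at x2
  rw [← x2] at x1
  -- x1 : the sum of the links vanishes
  obtain ⟨k, rfl⟩ : ∃ k, m = k + 3 := ⟨m - 3, by omega⟩
  obtain ⟨mu, hmu⟩ : ∃ mu : ℕ → Bool, ∀ i, mu i = xor (fu i) (fw (i + 1)) := ⟨_, fun _ => rfl⟩
  have x6 : xs mu (k + 3) = false := by
    have : mu = fun i => xor (fu i) (fw (i + 1)) := funext hmu
    rw [this]
    exact x1
  have x7 : xs mu (k + 3) = xor (xs mu (k + 2)) (mu (k + 2)) := rfl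
  obtain ⟨-, -, x8, -⟩ := h4 mu mu (k + 1)
  obtain ⟨-, -, -, x9, -⟩ := h4 (fun i => mu (i + 1))
    (fun i => xor (b (q (i + 1)) (q 0)) (b (q (i + 1 + 1)) (q 0))) (k + 1)
  have x10 := x9 (fun i hi => by
    have a1 := e2 (i + 1) (0 + (k + 3)) (by omega) (by omega)
    rw [D.pq] at a1
    show mu (i + 1) = _
    rw [hmu]
    exact a1)
  have x11 := rcy_tel (fun i => b (q (i + 1)) (q 0)) (k + 1)
  beta_reduce at x11
  rw [x11] at x10
  have y0 := e2 0 (k + 2) (by omega) (by omega)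
  have y1 := e2 (k + 2) (1 + (k + 3)) (by omega) (by omega)
  rw [D.pq] at y1
  have y2 : q (k + 2 + 1) = q 0 := by
    have := D.pq 0
    rw [show k + 2 + 1 = 0 + (k + 3) by omega]
    exact this
  rw [y2] at y1
  have n1 := hb.1 (q 0) (qS 0) (q 1) (qS 1) (qq 0 1 (by omega) (by omega))
  have n2 := hb.1 (q 0) (qS 0) (q (k + 2)) (qS _) (qq 0 (k + 2) (by omega) (by omega))
  have n3 := hb.1 (q 1) (qS 1) (q (k + 2)) (qS _) (qq 1 (k + 2) (by omega) (by omega))
  rw [x7, x8, x10, hmu 0, hmu (k + 2), y0, y1] at x6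
  simp only [Nat.zero_add] at x6
  revert x6 n1 n2 n3
  cases b (q 0) (q 1) <;> cases b (q 1) (q 0) <;> cases b (q 0) (q (k + 2)) <;>
    cases b (q (k + 2)) (q 0) <;> cases b (q 1) (q (k + 2)) <;> cases b (q (k + 2)) (q 1) <;> simp

end Pool.Agent.Helper64.FL
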