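import Pool.Agent.Helper64.FL.StE

/-! Full list for MP_866009_co: soundness of the checker. -/

set_option autoImplicit false

namespace Pool.Agent.Helper64.FL

open Pool.Agent.Helper64.CT Pool.Agent.Helper64.DT
open Pool.Agent.Helper64.HG (Ovl Model Circ IC HellyCircle ChordModel)

theorem snd_okp {s : Sk} {i j : ℕ} (h : okp s i j = true) : i < s.n ∧ j < s.n ∧ i ≠ j := by
  unfold okp at h
  simp only [Bool.and_eq_true, Bool.not_eq_true', Nat.blt_eq] at h
  obtain ⟨⟨h1, h2⟩, h3⟩ := h
  refine ⟨h1, h2, fun e => ?_⟩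
  subst e
  simp at h3

theorem snd_tb (m i : ℕ) : tb m i = Nat.testBit m i := by
  unfold tb
  rw [Nat.testBit_eq_decide_div_mod_eq]
  have h1 : Nat.land (Nat.shiftRight m i) 1 = m / 2 ^ i % 2 := by
    have h2 : Nat.land (Nat.shiftRight m i) 1 = (m >>> i) &&& 1 := rfl
    rw [h2, Nat.and_one_is_mod, Nat.shiftRight_eq_div_pow]
  rw [h1]
  rcases Nat.mod_two_eq_zero_or_one (m / 2 ^ i) with h | h <;> rw [h] <;> rfl

theorem snd_full (n i : ℕ) : tb (Nat.pred (Nat.shiftLeft 1 n)) i = decide (i < n) := by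
  rw [snd_tb]
  have h : Nat.pred (Nat.shiftLeft 1 n) = 2 ^ n - 1 := by
    have h2 : Nat.shiftLeft 1 n = 1 <<< n := rfl
    rw [h2, Nat.one_shiftLeft]
    rfl
  rw [h, Nat.testBit_two_pow_sub_one]

theorem snd_taps (hT : ST_TAP) (V : Type) (G : SimpleGraph V) (f : ℕ → V) :
    ∀ (o : List TOp) (t t' : TS) (L : List (Seg × List V)), ModA G (Al t) t.s f L →
      CovA (Al t) f L → taps o t = some t' →
      ∃ L', ModA G (Al t') t'.s f L' ∧ CovA (Al t') f L' := by
  intro o
  induction o with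
  | nil =>
    intro t t' L h1 h2 h3
    have h4 : t = t' := Option.some.inj h3
    subst h4
    exact ⟨L, h1, h2⟩
  | cons o l ih =>
    intro t t' L h1 h2 h3
    unfold taps at h3
    cases h4 : tap o t with
    | none =>
      rw [h4] at h3
      exact absurd h3 (by simp)
    | some u =>
      rw [h4] at h3
      obtain ⟨L1, g1, g2⟩ := hT V G t u f L o h1 h2 h4
      exact ih u t' L1 g1 g2 h3

theorem snd_getT : ∀ (l : List Ent) (i : ℕ) (T : Ent), getT l i = some T → T ∈ l
  | [], _, _, h => by simp [getT] at h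
  | a :: l, 0, T, h => by
    have h1 : a = T := Option.some.inj h
    rw [h1]
    exact List.mem_cons_self
  | a :: l, k + 1, T, h => List.mem_cons_of_mem _ (snd_getT l k T h)

theorem snd_flip_n (s : Sk) : (flipS s).n = s.n := by
  unfold flipS
  cases s.sg <;> rfl

theorem snd_drop_n (s : Sk) : (dropS s).n = s.n := by
  unfold dropS
  cases s.sg <;> rfl

theorem st_SND (hSET : ST_SET) (hFRF : ST_FRF) (hDRP : ST_DRP) (hATH : ST_ATH) (hNAM : ST_NAM)
    (hCRT : ST_CRT) (hWHE : ST_WHE) (hLDE : ST_LDE) (hTAP : ST_TAP) (hFIN : ST_FIN) : ST_SND := by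
  intro V G tb0 cv t
  induction t with
  | dia a b c d =>
    intro s f L hR hM _ hc
    exfalso
    unfold chk at hc
    simp only [Bool.and_eq_true] at hc
    obtain ⟨⟨⟨⟨⟨⟨⟨⟨⟨⟨⟨h1, h2⟩, h3⟩, h4⟩, h5⟩, h6⟩, o1⟩, o2⟩, o3⟩, o4⟩, o5⟩, o6⟩ := hc
    have hE : ∀ i j, okp s i j = true → eb s i j = true → G.Adj (f i) (f j) := by
      intro i j ho he
      obtain ⟨q1, q2, q3⟩ := snd_okp ho
      exact (hM.adj i j (lt_of_lt_of_le q1 hM.n32) (lt_of_lt_of_le q2 hM.n32) he).2.2 q3
    obtain ⟨q1, q2, q3⟩ := snd_okp o6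
    have hcd : ¬ G.Adj (f c) (f d) :=
      (hM.nad c d (lt_of_lt_of_le q1 hM.n32) (lt_of_lt_of_le q2 hM.n32) h6).2.2 q3
    exact hcd (hR.df (f a) (f b) (f c) (f d) (hE a b o1 h1) (hE a c o2 h2) (hE b c o3 h3)
      (hE a d o4 h4) (hE b d o5 h5) (fun e => q3 (hM.inj c d q1 q2 e)))
  | cert z k m =>
    intro s f L hR hM _ hc
    exfalso
    unfold chk at hc
    simp only [Bool.and_eq_true, Nat.blt_eq] at hc
    obtain ⟨h1, h2⟩ := hc
    have h3 := hCRT V G s f L z k m {v | v ≠ f z} hM (hR.naj (f z))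
      (fun i hi hiz e => hiz (hM.inj i z hi h2 e)) (fun p hp x hx => hM.dis p hp x hx z h2)
    rw [h1] at h3
    exact absurd h3 (by simp)
  | whl h r i l =>
    intro s f L hR hM hC hc
    unfold chk at hc
    simp only [Bool.and_eq_true] at hc
    exact ⟨hc.1, Or.inl (hWHE V G s f L h r i l hM (hC hc.1) hc.2)⟩
  | ldr c h k i l =>
    intro s f L hR hM hC hc
    unfold chk at hc
    simp only [Bool.and_eq_true] at hc
    exact ⟨hc.1, Or.inr (Or.inl (hLDE V G s f L c h k i l hM (hC hc.1) hc.2))⟩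
  | tab i o p =>
    intro s f L hR hM hC hc
    unfold chk at hc
    simp only [Bool.and_eq_true] at hc
    obtain ⟨h1, h2⟩ := hc
    refine ⟨h1, Or.inr (Or.inr ?_)⟩
    cases hT : getT tb0 i with
    | none =>
      rw [hT] at h2
      exact absurd h2 (by simp)
    | some T =>
      rw [hT] at h2
      simp only at h2
      cases ht : taps o ⟨Nat.pred (Nat.shiftLeft 1 s.n), s⟩ with
      | none =>
        rw [ht] at h2
        exact absurd h2 (by simp)
      | some t =>
        rw [ht] at h2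
        simp only at h2
        have hA : Al ⟨Nat.pred (Nat.shiftLeft 1 s.n), s⟩ = fun i => i < s.n := by
          funext i
          unfold Al
          apply propext
          rw [snd_full]
          constructor
          · exact fun h => h.1
          · intro h
            exact ⟨h, by simpa using h⟩
        obtain ⟨L', g1, g2⟩ := snd_taps hTAP V G f o _ t L (by rw [hA]; exact hM)
          (by rw [hA]; exact hC h1) ht
        exact ⟨T, snd_getT tb0 i T hT, hFIN V G t f L' T p g1 g2 h2⟩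
  | bit i j t1 t0 ih1 ih0 =>
    intro s f L hR hM hC hc
    unfold chk at hc
    simp only [Bool.and_eq_true] at hc
    obtain ⟨⟨h1, h2⟩, h3⟩ := hc
    by_cases hadj : G.Adj (f i) (f j)
    · exact ih1 (setE s i j) f L hR ((hSET V G _ s f L i j hM h1).1 hadj) hC h2
    · exact ih0 (setD s i j) f L hR ((hSET V G _ s f L i j hM h1).2 hadj) hC h3
  | front k t ih =>
    intro s f L hR hM hC hc
    unfold chk at hc
    obtain ⟨L', g1, g2⟩ := (hFRF V G _ s f L hM).1 k
    exact ih (front s k) f L' hR g1 (fun h => g2 (hC h)) hc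
  | flip t ih =>
    intro s f L hR hM hC hc
    unfold chk at hc
    obtain ⟨L', g1, g2⟩ := (hFRF V G _ s f L hM).2
    refine ih (flipS s) f L' hR ?_ (fun h => ?_) hc
    · unfold Mod
      rw [snd_flip_n]
      exact g1
    · unfold Cov
      rw [snd_flip_n]
      exact g2 (hC h)
  | drop t ih =>
    intro s f L hR hM hC hc
    unfold chk at hc
    cases hs : s.sg with
    | nil =>
      rw [hs] at hc
      simp at hc
    | cons g l =>
      rw [hs] at hc
      simp only [Bool.and_eq_true] at hc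
      obtain ⟨⟨h1, h2⟩, h3⟩ := hc
      obtain ⟨L', g1, g2⟩ := hDRP V G s f L g l hM hs h1
      exact ih (dropS s) f L' hR g1 (fun h => g2 (hC h)) h3
  | att x t1 t0 ih1 ih0 =>
    intro s f L hR hM hC hc
    unfold chk at hc
    cases hs : s.sg with
    | nil =>
      rw [hs] at hc
      simp at hc
    | cons g l =>
      rw [hs] at hc
      simp only [Bool.and_eq_true, Nat.blt_eq] at hc
      obtain ⟨⟨⟨⟨⟨h1, h2⟩, h3⟩, h4⟩, h5⟩, h6⟩ := hc
      rcases hATH V G s f L g l x hM hs h1 h2 h4 with ⟨L', g1, g2⟩ | ⟨f', L', g1, g2⟩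
      · exact ih0 (clean s x) f L' hR g1 (fun h => g2 (hC h)) h6
      · exact ih1 (attach s x) f' L' hR g1 (fun h => g2 (hC h)) h5
  | name t ih =>
    intro s f L hR hM hC hc
    unfold chk at hc
    cases hs : s.sg with
    | nil =>
      rw [hs] at hc
      simp at hc
    | cons g l =>
      rw [hs] at hc
      simp only [Bool.and_eq_true, Nat.blt_eq] at hc
      obtain ⟨⟨⟨h1, h2⟩, h3⟩, h4⟩ := hc
      obtain ⟨f', L', g1, g2⟩ := hNAM V G s f L g l hM hs h1 h3
      exact ih (nameS s) f' L' hR g1 (fun h => g2 (hC h)) h4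

end Pool.Agent.Helper64.FL
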